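import Pool.Agent.H47.VT.Targets6

/-!
# (DVA) elementary properties of the divisor functions
-/

set_option autoImplicit false

open Finset

namespace Pool.Agent.H92.VT

open Pool.Agent.H47.VT

theorem tk_zero_right (k : ℕ) : tk k 0 = 0 := by
  unfold tk
  rw [ArithmeticFunction.map_zero, Nat.cast_zero]

theorem tk_nonneg (k n : ℕ) : 0 ≤ tk k n := by
  unfold tk
  exact Nat.cast_nonneg _

theorem tk_one (n : ℕ) (hn : n ≠ 0) : tk 1 n = 1 := by
  unfold tk
  rw [pow_one, ArithmeticFunction.zeta_apply_ne hn, Nat.cast_one]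

theorem tk_add (k l n : ℕ) :
    ∑ x ∈ n.divisorsAntidiagonal, tk k x.1 * tk l x.2 = tk (k + l) n := by
  unfold tk
  rw [pow_add, ArithmeticFunction.mul_apply]
  push_cast
  rfl

theorem tk_sum (k n : ℕ) : ∑ d ∈ n.divisors, tk k d = tk (k + 1) n := by
  unfold tk
  rw [pow_succ, ArithmeticFunction.mul_zeta_apply]
  push_cast
  rfl

theorem tk_succ (k n : ℕ) (hn : 1 ≤ n) : tk k n ≤ tk (k + 1) n := by
  rw [← tk_sum]
  exact single_le_sum (f := fun d => tk k d) (fun d _ => tk_nonneg k d)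
    (Nat.mem_divisors_self n (by omega))

theorem one_le_tk (k n : ℕ) (hk : 1 ≤ k) (hn : 1 ≤ n) : 1 ≤ tk k n := by
  induction k, hk using Nat.le_induction with
  | base => rw [tk_one n (by omega)]
  | succ k _ ih => exact ih.trans (tk_succ k n hn)

open scoped Pointwise in
theorem tk_mul (k m n : ℕ) (hk : 1 ≤ k) : tk k (m * n) ≤ tk k m * tk k n := by
  induction k, hk using Nat.le_induction generalizing m n with
  | base =>
    by_cases h : m * n = 0
    · rw [h, tk_zero_right]
      exact mul_nonneg (tk_nonneg _ _) (tk_nonneg _ _)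
    · rw [tk_one _ h, tk_one _ (left_ne_zero_of_mul h), tk_one _ (right_ne_zero_of_mul h), one_mul]
  | succ k _ ih =>
    rw [← tk_sum, ← tk_sum, ← tk_sum, sum_mul_sum, ← sum_product', Nat.divisors_mul, mul_def]
    have h1 : ∀ d ∈ (m.divisors ×ˢ n.divisors).image (fun p => p.1 * p.2), tk k d ≤
        ∑ p ∈ (m.divisors ×ˢ n.divisors).filter (fun p => p.1 * p.2 = d), tk k p.1 * tk k p.2 := by
      intro d hd
      obtain ⟨p, hp, rfl⟩ := mem_image.1 hd
      refine (ih p.1 p.2).trans ?_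
      exact single_le_sum (f := fun p : ℕ × ℕ => tk k p.1 * tk k p.2)
        (fun q _ => mul_nonneg (tk_nonneg _ _) (tk_nonneg _ _)) (mem_filter.2 ⟨hp, rfl⟩)
    refine (sum_le_sum h1).trans (le_of_eq ?_)
    exact sum_fiberwise_of_maps_to (fun p hp => mem_image_of_mem _ hp) _

theorem tk_dvd (k n d : ℕ) (hk : 1 ≤ k) (hn : n ≠ 0) (hd : d ∣ n) : tk k d ≤ tk k n := by
  obtain ⟨j, rfl⟩ := Nat.exists_eq_add_of_le' hk
  rw [← tk_sum, ← tk_sum]
  exact sum_le_sum_of_subset_of_nonneg (Nat.divisors_subset_of_dvd hn hd)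
    fun _ _ _ => tk_nonneg _ _

theorem tk_prod (k l n : ℕ) (hk : 1 ≤ k) (hl : 1 ≤ l) : tk k n * tk l n ≤ tk (k * l) n := by
  induction l, hl using Nat.le_induction generalizing n with
  | base =>
    by_cases h : n = 0
    · rw [h, tk_zero_right, tk_zero_right, zero_mul, tk_zero_right]
    · rw [tk_one _ h, mul_one, mul_one]
  | succ l _ ih =>
    rw [← tk_sum l n, mul_sum]
    have h1 : k * (l + 1) = k * l + k := by ring
    rw [h1, ← tk_add, Nat.sum_divisorsAntidiagonal (fun x y => tk (k * l) x * tk k y)]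
    refine sum_le_sum fun d hd => ?_
    have hdn : d ∣ n := Nat.dvd_of_mem_divisors hd
    have h2 : tk k n ≤ tk k d * tk k (n / d) := by
      conv_lhs => rw [← Nat.mul_div_cancel' hdn]
      exact tk_mul k d (n / d) hk
    calc tk k n * tk l d ≤ (tk k d * tk k (n / d)) * tk l d :=
          mul_le_mul_of_nonneg_right h2 (tk_nonneg _ _)
      _ = (tk k d * tk l d) * tk k (n / d) := by ring
      _ ≤ tk (k * l) d * tk k (n / d) := mul_le_mul_of_nonneg_right (ih d) (tk_nonneg _ _)

/-- (DVA) elementary properties. -/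
theorem pf_DVA : T_DVA :=
  ⟨one_le_tk, tk_succ, tk_mul, fun k n d hk hn hd => tk_dvd k n d hk hn hd, tk_prod,
    tk_sum, tk_add⟩

end Pool.Agent.H92.VT
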